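import Pool.Agent.K.MP_39acbb_lc.C1

set_option autoImplicit false

namespace Pool.Agent.Results.MP_39acbb_lc.CountableCase

open Pool.Agent.Lib.PosetForcing Pool.Agent.P.MP_39acbb_lc

/-- There is a model of ZFC in which every Hausdorff topological group that has a countable subset
with an accumulation point (for instance every countable non-discrete group) has a nonempty
nowhere dense subset without isolated points. -/
theorem result : ∃ (N : Type) (mem : N → N → Prop), IsZFC mem ∧ Gr.CountableCase mem :=
  Gr.consistent

end Pool.Agent.Results.MP_39acbb_lc.CountableCase
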