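import Pool.Agent.K.MP_39acbb_lc.C0

set_option autoImplicit false

namespace Pool.Agent.Results.MP_39acbb_lc.DiamondFails

open Cardinal Pool.Agent.P.MP_39acbb_lc

universe u

/-- If every non-discrete Hausdorff topological group has a nowhere dense subset with an
accumulation point (in particular if the statement of Q1 holds), then Jensen's diamond principle
fails at every uncountable regular cardinal. -/
theorem result
    (h : ∀ (G : Type u) [Group G] [TopologicalSpace G] [IsTopologicalGroup G] [T2Space G],
      ¬ DiscreteTopology G →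
        ∃ (A : Set G) (x : G), IsNowhereDense A ∧ AccPt x (Filter.principal A))
    (κ : Cardinal.{u}) (hκ : κ.IsRegular) (hun : ℵ₀ < κ) :
    ¬ ∃ D : κ.ord.ToType → Set κ.ord.ToType,
      ∀ Z : Set κ.ord.ToType, IsStationary {ε | Z ∩ Set.Iio ε = D ε} := by
  rintro ⟨D, hD⟩
  have hun' : ℵ₀ < #κ.ord.ToType := by rwa [mk_ord_toType]
  exact not_nodec h _
    (nodec_of_guess (reg_toType hκ) hun' (guess_of_diamond (reg_toType hκ) hun' D hD))

end Pool.Agent.Results.MP_39acbb_lc.DiamondFails
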