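import Pool.Agent.K.MP_39acbb_lc.C0

set_option autoImplicit false

namespace Pool.Agent.Results.MP_39acbb_lc.GCHFails

open Cardinal Pool.Agent.P.MP_39acbb_lc

universe u

/-- If every non-discrete Hausdorff topological group has a nowhere dense subset with an
accumulation point (in particular if the statement of Q1 holds), then `2 ^ μ > μ⁺` for every
infinite cardinal `μ`. -/
theorem result
    (h : ∀ (G : Type u) [Group G] [TopologicalSpace G] [IsTopologicalGroup G] [T2Space G],
      ¬ DiscreteTopology G →
        ∃ (A : Set G) (x : G), IsNowhereDense A ∧ AccPt x (Filter.principal A))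
    (μ : Cardinal.{u}) (hμ : ℵ₀ ≤ μ) : Order.succ μ < 2 ^ μ := by
  refine lt_of_le_of_ne (Order.succ_le_of_lt (cantor μ)) fun e => ?_
  rcases hμ.eq_or_lt with rfl | hlt
  · exact not_nodec h (ULift.{u} ℕ →₀ ZMod 2) (nodec_of_ch e.symm bool_G)
  · refine not_nodec h _
      (nodec_of_guess (reg_toType (isRegular_succ hμ)) ?_ (guess_of_gch hlt e.symm))
    rw [mk_ord_toType]
    exact Order.lt_succ_of_le hμ

end Pool.Agent.Results.MP_39acbb_lc.GCHFails
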