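import Pool.Agent.K.MP_39acbb_lc.C2

set_option autoImplicit false

namespace Pool.Agent.Results.MP_39acbb_lc.NoInaccessible

open Cardinal Pool.Agent.P.MP_39acbb_lc

universe u

/-- Let `κ > ℵ₁` be regular with `2 ^ μ ≤ κ` and `μ ^ ℵ₀ < κ` for all `μ < κ` (for instance an
inaccessible cardinal). Then some non-discrete Hausdorff topological group of size at most `κ`
has no nowhere dense subset with an accumulation point. -/
theorem result (κ : Cardinal.{u}) (hκ : κ.IsRegular) (h1 : ℵ₁ < κ)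
    (h2 : ∀ μ < κ, 2 ^ μ ≤ κ ∧ μ ^ ℵ₀ < κ) :
    ∃ (G : Type u) (_ : Group G) (_ : TopologicalSpace G), IsTopologicalGroup G ∧ T2Space G ∧
      ¬ DiscreteTopology G ∧ #G ≤ κ ∧
        ∀ A : Set G, IsNowhereDense A → ∀ x : G, ¬ AccPt x (Filter.principal A) := by
  have hT := reg_toType hκ
  have e : #κ.ord.ToType = κ := mk_ord_toType κ
  obtain ⟨G, _, hG, τ, g1, g2, g3, g4⟩ := nodec_of_closed hT (h1.trans_eq e.symm)
    (cnt_of_pow hT (by rw [e]; exact fun μ h => (h2 μ h).1))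
    (by rw [e]; exact fun μ h => (h2 μ h).2)
  refine ⟨Multiplicative G, inferInstance, τ,
    (inferInstance : IsTopologicalGroup (Multiplicative G)), g2, g3, hG.trans_eq e,
    fun A hA x hx => ?_⟩
  obtain ⟨V, hV, hVA⟩ := g4 A hA x
  obtain ⟨y, hy, hyx⟩ := accPt_iff_nhds.1 hx V hV
  exact hyx (hVA hy)

/-- Every inaccessible cardinal satisfies the hypotheses. -/
theorem of_inaccessible (κ : Cardinal.{u}) (hκ : κ.IsInaccessible) :
    κ.IsRegular ∧ ℵ₁ < κ ∧ ∀ μ < κ, 2 ^ μ ≤ κ ∧ μ ^ ℵ₀ < κ := by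
  have h0 : ℵ₀ < κ := hκ.aleph0_lt
  have h : ∀ μ < κ, 2 ^ μ < κ := fun _ h => hκ.isStrongPrelimit h
  refine ⟨hκ.isRegular, ?_, fun μ hμ => ⟨(h μ hμ).le, ?_⟩⟩
  · exact aleph_one_le_continuum.trans_lt (by rw [← two_power_aleph0]; exact h _ h0)
  · refine lt_of_le_of_lt ?_ (h _ (mul_lt_of_lt h0.le hμ h0))
    rw [power_mul]
    exact power_le_power_right (cantor μ).le

/-- The hypotheses are satisfiable: the cardinal of a universe is inaccessible. -/
theorem hyp_univ : ∃ κ : Cardinal.{u + 1},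
    κ.IsRegular ∧ ℵ₁ < κ ∧ ∀ μ < κ, 2 ^ μ ≤ κ ∧ μ ^ ℵ₀ < κ :=
  ⟨_, of_inaccessible _ IsInaccessible.univ.{u, u + 1}⟩

end Pool.Agent.Results.MP_39acbb_lc.NoInaccessible
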